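import Pool.Agent.Helper221.BID.NoDec

/-!
# Acyclicity: cones and elementary collapses
-/

set_option autoImplicit false

namespace Pool.Agent.Helper221.BID

open Finset

variable {F : Type*} [Field F]

/-- the sign of `x` with respect to `τ` -/
def sg (F : Type*) [Field F] (x : ℕ) (τ : Finset ℕ) : F := (-1) ^ (τ.filter (fun y => y < x)).card

theorem sg_mul_self (x : ℕ) (τ : Finset ℕ) : sg F x τ * sg F x τ = 1 := by
  rw [sg, ← pow_add, ← two_mul, pow_mul]
  simp

/-- effect of inserting an element on the sign -/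
theorem sg_insert (x y : ℕ) (τ : Finset ℕ) (hx : x ∉ τ) :
    sg F y (insert x τ) = (if x < y then -1 else 1) * sg F y τ := by
  rw [sg, sg, filter_insert]
  split_ifs with h
  · rw [card_insert_of_notMem (by simp [hx]), pow_succ]
    ring
  · rw [one_mul]

theorem sg_swap (x y : ℕ) (τ : Finset ℕ) (hxy : x ≠ y) (hx : x ∉ τ) (hy : y ∉ τ) :
    sg F x (insert y τ) * sg F y (insert x τ) = - (sg F x τ * sg F y τ) := by
  rw [sg_insert y x τ hy, sg_insert x y τ hx]
  rcases lt_or_gt_of_ne hxy with h | h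
  · rw [if_neg (not_lt.2 h.le), if_pos h]; ring
  · rw [if_pos h, if_neg (not_lt.2 h.le)]; ring

/-- boundary with respect to a vertex set `V` -/
def bdV (V : Finset ℕ) (c : Finset ℕ → F) (τ : Finset ℕ) : F :=
  ∑ x ∈ V \ τ, sg F x τ * c (insert x τ)

def AcycV (F : Type*) [Field F] (V : Finset ℕ) (A : Finset (Finset ℕ)) : Prop :=
  ∀ c : Finset ℕ → F, (∀ σ, σ ∉ A → c σ = 0) → (∀ τ, bdV V c τ = 0) →
    ∃ b : Finset ℕ → F, (∀ σ, σ ∉ A → b σ = 0) ∧ ∀ τ, bdV V b τ = c τ

theorem bd_eq {V : Finset ℕ} {A : Finset (Finset ℕ)} (hV : ∀ σ ∈ A, σ ⊆ V) {c : Finset ℕ → F}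
    (hc : ∀ σ, σ ∉ A → c σ = 0) (τ : Finset ℕ) : bd A c τ = bdV V c τ := by
  have h1 : verts A ⊆ V := by
    intro x hx
    rw [verts, mem_biUnion] at hx
    obtain ⟨σ, hσ, h⟩ := hx
    exact hV σ hσ h
  rw [bd, bdV]
  refine sum_subset (sdiff_subset_sdiff h1 (Subset.refl _)) ?_
  intro x hx hx'
  rw [mem_sdiff] at hx hx'
  rw [hc, mul_zero]
  intro hcon
  apply hx'
  refine ⟨?_, hx.2⟩
  rw [verts, mem_biUnion]
  exact ⟨_, hcon, mem_insert_self _ _⟩

theorem acyclic_of {V : Finset ℕ} {A : Finset (Finset ℕ)} (hV : ∀ σ ∈ A, σ ⊆ V)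
    (h : AcycV F V A) : Acyclic F A := by
  intro c hc hbd
  obtain ⟨b, hb, hb2⟩ := h c hc (fun τ => by rw [← bd_eq hV hc]; exact hbd τ)
  exact ⟨b, hb, fun τ => by rw [bd_eq hV hb]; exact hb2 τ⟩

theorem bdV_bdV (V : Finset ℕ) (c : Finset ℕ → F) (τ : Finset ℕ) : bdV V (bdV V c) τ = 0 := by
  have h1 : bdV V (bdV V c) τ = ∑ p ∈ (V \ τ).sigma (fun x => V \ insert x τ),
      sg F p.1 τ * (sg F p.2 (insert p.1 τ) * c (insert p.2 (insert p.1 τ))) := by
    rw [sum_sigma, bdV]
    refine sum_congr rfl fun x _ => ?_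
    rw [bdV, mul_sum]
  rw [h1]
  refine sum_involution (fun p _ => ⟨p.2, p.1⟩) ?_ ?_ ?_ ?_
  · rintro ⟨x, y⟩ hp
    simp only [mem_sigma, mem_sdiff, mem_insert, not_or] at hp
    obtain ⟨⟨hx, hxτ⟩, hy, hyx, hyτ⟩ := hp
    dsimp only
    rw [Finset.insert_comm y x τ, sg_insert x y τ hxτ, sg_insert y x τ hyτ]
    rcases lt_or_gt_of_ne hyx with h | h
    · rw [if_neg (not_lt.2 h.le), if_pos h]; ring
    · rw [if_pos h, if_neg (not_lt.2 h.le)]; ring
  · rintro ⟨x, y⟩ hp _ hcon
    simp only [mem_sigma, mem_sdiff, mem_insert, not_or] at hp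
    rw [Sigma.mk.injEq] at hcon
    exact hp.2.2.1 hcon.1
  · rintro ⟨x, y⟩ hp
    simp only [mem_sigma, mem_sdiff, mem_insert, not_or] at hp ⊢
    obtain ⟨⟨hx, hxτ⟩, hy, hyx, hyτ⟩ := hp
    exact ⟨⟨hy, hyτ⟩, hx, Ne.symm hyx, hxτ⟩
  · rintro ⟨x, y⟩ _
    rfl

/-- a cone is acyclic -/
theorem cone_acyc {V : Finset ℕ} {A : Finset (Finset ℕ)} {n : ℕ} (hn : n ∈ V)
    (hcone : ∀ τ ∈ A, insert n τ ∈ A) : AcycV F V A := by
  intro c hc hbd
  refine ⟨fun σ => if n ∈ σ then sg F n (σ.erase n) * c (σ.erase n) else 0, ?_, ?_⟩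
  · intro σ hσ
    dsimp only
    split_ifs with h
    · rw [hc, mul_zero]
      intro hcon
      apply hσ
      have := hcone _ hcon
      rwa [insert_erase h] at this
    · rfl
  · intro τ
    by_cases hτ : n ∈ τ
    · set ρ := τ.erase n with hρ
      have hnρ : n ∉ ρ := notMem_erase _ _
      have hins : insert n ρ = τ := insert_erase hτ
      have h0 := hbd ρ
      rw [bdV] at h0
      have hsplit : V \ ρ = insert n (V \ τ) := by
        ext y
        rw [mem_insert, mem_sdiff, mem_sdiff, hρ, mem_erase]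
        constructor
        · rintro ⟨h1, h2⟩
          by_cases hyn : y = n
          · exact Or.inl hyn
          · exact Or.inr ⟨h1, fun h => h2 ⟨hyn, h⟩⟩
        · rintro (rfl | ⟨h1, h2⟩)
          · exact ⟨hn, fun h => h.1 rfl⟩
          · exact ⟨h1, fun h => h2 h.2⟩
      rw [hsplit, sum_insert (by simp [hτ]), hins] at h0
      rw [bdV]
      have h2 : ∀ x ∈ V \ τ, sg F x τ * (if n ∈ insert x τ then
          sg F n ((insert x τ).erase n) * c ((insert x τ).erase n) else 0) =
          - sg F n ρ * (sg F x ρ * c (insert x ρ)) := by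
        intro x hx
        rw [mem_sdiff] at hx
        have hxn : x ≠ n := by rintro rfl; exact hx.2 hτ
        have hxρ : x ∉ ρ := fun h => hx.2 (mem_of_mem_erase h)
        rw [if_pos (mem_insert_of_mem hτ)]
        have h3 : (insert x τ).erase n = insert x ρ := by
          rw [erase_insert_of_ne hxn]
        rw [h3, ← mul_assoc, ← hins, sg_swap x n ρ hxn hxρ hnρ]
        ring
      rw [sum_congr rfl h2, ← mul_sum]
      have h4 : ∑ x ∈ V \ τ, sg F x ρ * c (insert x ρ) = - (sg F n ρ * c τ) := by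
        rw [eq_neg_iff_add_eq_zero, add_comm]; exact h0
      rw [h4]
      have h5 := sg_mul_self (F := F) n ρ
      calc - sg F n ρ * -(sg F n ρ * c τ) = (sg F n ρ * sg F n ρ) * c τ := by ring
        _ = c τ := by rw [h5, one_mul]
    · rw [bdV, sum_eq_single n]
      · rw [if_pos (mem_insert_self _ _), erase_insert hτ, ← mul_assoc, sg_mul_self, one_mul]
      · intro x _ hxn
        rw [if_neg, mul_zero]
        rw [mem_insert, not_or]
        exact ⟨Ne.symm hxn, hτ⟩
      · intro h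
        exact absurd (mem_sdiff.2 ⟨hn, hτ⟩) h

/-- an elementary collapse: if `τ` is contained in no other faces than `τ` and `insert x τ` -/
theorem collapse_acyc {V : Finset ℕ} {A : Finset (Finset ℕ)} {τ : Finset ℕ} {x : ℕ}
    (hV : ∀ σ ∈ A, σ ⊆ V) (hdown : ∀ σ ∈ A, ∀ ρ ⊆ σ, ρ ∈ A) (hx : x ∉ τ)
    (hσ : insert x τ ∈ A) (hfree : ∀ ρ ∈ A, τ ⊆ ρ → ρ = τ ∨ ρ = insert x τ)
    (h : AcycV F V ((A.erase τ).erase (insert x τ))) : AcycV F V A := by
  intro c hc hbd
  have hxV : x ∈ V := hV _ hσ (mem_insert_self _ _)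
  have hne : insert x τ ≠ τ := fun h => hx (by rw [← h]; exact mem_insert_self _ _)
  -- the value at the coface
  have h0 : c (insert x τ) = 0 := by
    have h1 := hbd τ
    rw [bdV, sum_eq_single x] at h1
    · have h2 := sg_mul_self (F := F) x τ
      calc c (insert x τ) = (sg F x τ * sg F x τ) * c (insert x τ) := by rw [h2, one_mul]
        _ = sg F x τ * (sg F x τ * c (insert x τ)) := by ring
        _ = 0 := by rw [h1, mul_zero]
    · intro y hy hyx
      rw [mem_sdiff] at hy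
      rw [hc, mul_zero]
      intro hcon
      rcases hfree _ hcon (subset_insert _ _) with h3 | h3
      · exact hy.2 (by rw [← h3]; exact mem_insert_self _ _)
      · have : y ∈ insert x τ := by rw [← h3]; exact mem_insert_self _ _
        rcases mem_insert.1 this with h4 | h4
        · exact hyx h4
        · exact hy.2 h4
    · intro h
      exact absurd (mem_sdiff.2 ⟨hxV, hx⟩) h
  set b0 : Finset ℕ → F := fun σ => if σ = insert x τ then sg F x τ * c τ else 0 with hb0
  have hbτ : bdV V b0 τ = c τ := by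
    rw [bdV, sum_eq_single x]
    · rw [hb0]
      dsimp only
      rw [if_pos rfl, ← mul_assoc, sg_mul_self, one_mul]
    · intro y hy hyx
      rw [mem_sdiff] at hy
      rw [hb0]
      dsimp only
      rw [if_neg, mul_zero]
      intro h3
      have : y ∈ insert x τ := by rw [← h3]; exact mem_insert_self _ _
      rcases mem_insert.1 this with h4 | h4
      · exact hyx h4
      · exact hy.2 h4
    · intro h
      exact absurd (mem_sdiff.2 ⟨hxV, hx⟩) h
  have hb0σ : bdV V b0 (insert x τ) = 0 := by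
    rw [bdV]
    refine sum_eq_zero fun y hy => ?_
    rw [mem_sdiff] at hy
    rw [hb0]
    dsimp only
    rw [if_neg, mul_zero]
    intro h3
    exact hy.2 (by rw [← h3]; exact mem_insert_self _ _)
  have hb0A : ∀ σ, σ ∉ A → bdV V b0 σ = 0 := by
    intro σ hσA
    rw [bdV]
    refine sum_eq_zero fun y _ => ?_
    rw [hb0]
    dsimp only
    rw [if_neg, mul_zero]
    intro h3
    exact hσA (hdown _ hσ _ (by rw [← h3]; exact subset_insert _ _))
  have hadd : ∀ (f g : Finset ℕ → F) (ρ : Finset ℕ),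
      bdV V (fun σ => f σ + g σ) ρ = bdV V f ρ + bdV V g ρ := by
    intro f g ρ
    rw [bdV, bdV, bdV, ← sum_add_distrib]
    exact sum_congr rfl fun y _ => by ring
  have hsub : ∀ (f g : Finset ℕ → F) (ρ : Finset ℕ),
      bdV V (fun σ => f σ - g σ) ρ = bdV V f ρ - bdV V g ρ := by
    intro f g ρ
    rw [bdV, bdV, bdV, ← sum_sub_distrib]
    exact sum_congr rfl fun y _ => by ring
  obtain ⟨b, hb, hb2⟩ := h (fun σ => c σ - bdV V b0 σ) (by
    intro σ hσ'
    rw [mem_erase, mem_erase, not_and_or, not_and_or, not_not, not_not] at hσ'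
    rcases hσ' with rfl | rfl | h1
    · rw [h0, hb0σ, sub_zero]
    · rw [hbτ, sub_self]
    · rw [hc _ h1, hb0A _ h1, sub_zero]) (by
    intro ρ
    rw [hsub, hbd, bdV_bdV, sub_zero])
  refine ⟨fun σ => b σ + b0 σ, ?_, ?_⟩
  · intro σ hσA
    dsimp only
    rw [hb σ (fun h => hσA (mem_of_mem_erase (mem_of_mem_erase h)))]
    rw [hb0]
    dsimp only
    rw [if_neg (fun h => hσA (by rw [h]; exact hσ)), add_zero]
  · intro ρ
    rw [hadd, hb2]
    ring

theorem empty_acyc (V : Finset ℕ) : AcycV F V ∅ := by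
  intro c hc _
  refine ⟨fun _ => 0, fun _ _ => rfl, ?_⟩
  intro τ
  rw [hc τ (notMem_empty _), bdV]
  simp

/-- the cone raises the degree of acyclicity -/
theorem cone_kfold {Δ : Cpx} {n k : ℕ} (hn : Δ.Fresh n) (h : Δ.KFoldAcyclic F k) :
    (cone Δ n).KFoldAcyclic F (k + 1) := by
  intro σ hσ hk
  rw [mem_cone hn] at hσ
  by_cases hnσ : n ∈ σ
  · have h1 : (cone Δ n).link σ = Δ.link (σ.erase n) := by
      ext τ
      simp only [Cpx.link, mem_filter]
      rw [mem_cone hn, mem_cone hn]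
      constructor
      · rintro ⟨h1, h2, h3⟩
        have hnτ : n ∉ τ := fun h => (disjoint_left.1 h3 h) hnσ
        rw [erase_eq_of_notMem hnτ] at h1
        refine ⟨h1, ?_, h3.mono_right (erase_subset _ _)⟩
        rwa [erase_union_distrib, erase_eq_of_notMem hnτ] at h2
      · rintro ⟨h1, h2, h3⟩
        have hnτ : n ∉ τ := hn τ h1
        refine ⟨by rwa [erase_eq_of_notMem hnτ], ?_, ?_⟩
        · rwa [erase_union_distrib, erase_eq_of_notMem hnτ]
        · rw [disjoint_left] at h3 ⊢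
          intro y hy hyσ
          refine h3 hy (mem_erase.2 ⟨?_, hyσ⟩)
          rintro rfl
          exact hnτ hy
    rw [h1]
    refine h _ hσ ?_
    rw [card_erase_of_mem hnσ]
    have : 0 < σ.card := card_pos.2 ⟨n, hnσ⟩
    omega
  · refine acyclic_of (V := verts ((cone Δ n).link σ)) ?_ (cone_acyc (n := n) ?_ ?_)
    · intro τ hτ x hx
      rw [verts, mem_biUnion]
      exact ⟨τ, hτ, hx⟩
    · rw [verts, mem_biUnion]
      refine ⟨{n}, ?_, mem_singleton_self n⟩
      rw [Cpx.link, mem_filter, mem_cone hn, mem_cone hn]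
      refine ⟨?_, ?_, ?_⟩
      · simpa using Δ.empty_mem
      · rw [erase_eq_of_notMem hnσ] at hσ
        rwa [singleton_union, erase_insert hnσ]
      · rwa [disjoint_singleton_left]
    · intro τ hτ
      rw [Cpx.link, mem_filter, mem_cone hn, mem_cone hn] at hτ ⊢
      obtain ⟨h1, h2, h3⟩ := hτ
      refine ⟨?_, ?_, ?_⟩
      · rwa [erase_insert_eq_erase]
      · rwa [insert_union, erase_insert_eq_erase]
      · rw [disjoint_insert_left]
        exact ⟨hnσ, h3⟩

end Pool.Agent.Helper221.BID
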