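import Pool.Agent.Helper221.BID.Data

/-!
# The complex is 2-fold acyclic
-/

set_option autoImplicit false

namespace Pool.Agent.Helper221.BID

open Finset Pool.Agent.Helper175.NS Pool.Agent.W296.NP

variable {F : Type*} [Field F]

/-- check of a sequence of collapses down to the void complex -/
def collB : List (ℕ × ℕ) → List ℕ → Bool
  | [], l => l.isEmpty
  | p :: ps, l =>
    Nat.blt p.1 512 && Nat.blt p.2 9 && !(p.1.testBit p.2) &&
      l.any (fun m => Nat.beq m (p.1 ||| 2 ^ p.2)) &&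
      l.all (fun m => !(Nat.beq (m &&& p.1) p.1) || Nat.beq m p.1 || Nat.beq m (p.1 ||| 2 ^ p.2)) &&
      collB ps (l.filter (fun m => !(Nat.beq m p.1) && !(Nat.beq m (p.1 ||| 2 ^ p.2))))

theorem bfalse {a b : ℕ} : (!(Nat.beq a b)) = true ↔ a ≠ b := by
  rw [Bool.not_eq_true', ← Bool.not_eq_true, beq_iff]

theorem collB_acyc (ps : List (ℕ × ℕ)) : ∀ l : List ℕ, (∀ m ∈ l, m < 512) →
    (∀ σ ∈ deL l, ∀ ρ ⊆ σ, ρ ∈ deL l) → collB ps l = true → AcycV F (range 9) (deL l) := by
  induction ps with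
  | nil =>
    intro l _ _ h
    rw [collB, List.isEmpty_iff] at h
    subst h
    exact empty_acyc _
  | cons p ps ih =>
    intro l hl hdown h
    obtain ⟨t, x⟩ := p
    simp only [collB, Bool.and_eq_true, blt_iff, List.any_eq_true, List.all_eq_true,
      Bool.or_eq_true, beq_iff] at h
    obtain ⟨⟨⟨⟨⟨ht, hx⟩, hxt⟩, ⟨s, hs, hst⟩⟩, hfree⟩, hrec⟩ := h
    subst hst
    rw [Bool.not_eq_true'] at hxt
    have hs512 : t ||| 2 ^ x < 512 := hl _ hs
    have hins : de (t ||| 2 ^ x) = insert x (de t) := by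
      rw [de_or, de_pow (by omega), union_comm]
      rfl
    have hxde : x ∉ de t := by
      rw [mem_de, hxt]
      simp
    have hrest : deL (l.filter (fun m => !(Nat.beq m t) && !(Nat.beq m (t ||| 2 ^ x)))) =
        ((deL l).erase (de t)).erase (insert x (de t)) := by
      ext A
      rw [mem_deL, mem_erase, mem_erase, mem_deL]
      constructor
      · rintro ⟨m, hm, rfl⟩
        rw [List.mem_filter, Bool.and_eq_true, bfalse, bfalse] at hm
        obtain ⟨h1, h2, h3⟩ := hm
        refine ⟨?_, ?_, m, h1, rfl⟩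
        · intro h
          rw [← hins] at h
          exact h3 (de_inj (lt31 (hl m h1)) (lt31 hs512) h)
        · intro h
          exact h2 (de_inj (lt31 (hl m h1)) (lt31 ht) h)
      · rintro ⟨h1, h2, m, hm, rfl⟩
        refine ⟨m, ?_, rfl⟩
        rw [List.mem_filter, Bool.and_eq_true, bfalse, bfalse]
        refine ⟨hm, ?_, ?_⟩
        · rintro rfl
          exact h2 rfl
        · rintro rfl
          exact h1 hins
    have hfree' : ∀ ρ ∈ deL l, de t ⊆ ρ → ρ = de t ∨ ρ = insert x (de t) := by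
      intro ρ hρ hsub
      obtain ⟨m, hm, rfl⟩ := mem_deL.1 hρ
      have h1 := hfree m hm
      rcases h1 with (h1 | h1) | h1
      · rw [bfalse] at h1
        exact absurd ((land_eq' (lt31 ht)).2 hsub) h1
      · left; rw [h1]
      · right; rw [h1, hins]
    refine collapse_acyc (x := x) (τ := de t) ?_ hdown hxde ?_ hfree' ?_
    · intro σ hσ
      obtain ⟨m, hm, rfl⟩ := mem_deL.1 hσ
      intro i hi
      rw [mem_de] at hi
      rw [mem_range]
      by_contra hcon
      rw [Nat.testBit_lt_two_pow (lt_of_lt_of_le (hl m hm) (Nat.pow_le_pow_right (n := 2)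
        (by norm_num) (not_lt.1 hcon)))] at hi
      exact absurd hi.2 (by simp)
    · rw [← hins]
      exact mem_deL.2 ⟨_, hs, rfl⟩
    · rw [← hrest]
      refine ih _ (fun m hm => hl m (List.mem_filter.1 hm).1) ?_ hrec
      intro σ hσ ρ hρ
      rw [hrest, mem_erase, mem_erase] at hσ ⊢
      obtain ⟨h1, h2, h3⟩ := hσ
      refine ⟨?_, ?_, hdown σ h3 ρ hρ⟩
      · rintro rfl
        rcases hfree' σ h3 ((subset_insert _ _).trans hρ) with h | h
        · exact h2 h
        · exact h1 h
      · rintro rfl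
        rcases hfree' σ h3 hρ with h | h
        · exact h2 h
        · exact h1 h

/-- the link of the face with mask `s`, as a list of masks -/
def lkL (s : ℕ) : List ℕ :=
  (List.range 512).filter (fun m => isF (m ||| s) && Nat.beq (m &&& s) 0)

theorem lkL_lt {s m : ℕ} (h : m ∈ lkL s) : m < 512 :=
  List.mem_range.1 (List.mem_filter.1 h).1

theorem disjoint_iff_land {m s : ℕ} (hm : m < 512) :
    Disjoint (de m) (de s) ↔ m &&& s = 0 := by
  constructor
  · intro h
    apply Nat.eq_of_testBit_eq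
    intro i
    rw [Nat.testBit_and, Nat.zero_testBit]
    rcases Nat.lt_or_ge i 32 with hi | hi
    · by_contra hcon
      rw [Bool.not_eq_false, Bool.and_eq_true] at hcon
      exact disjoint_left.1 h (mem_de.2 ⟨hi, hcon.1⟩) (mem_de.2 ⟨hi, hcon.2⟩)
    · rw [testBit_lt (lt31 hm) (by omega : 31 ≤ i), Bool.false_and]
  · intro h
    rw [disjoint_left]
    intro i h1 h2
    rw [mem_de] at h1 h2
    have : (m &&& s).testBit i = true := by
      rw [Nat.testBit_and, h1.2, h2.2]
      rfl
    rw [h, Nat.zero_testBit] at this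
    exact absurd this (by simp)

theorem link_eq {s : ℕ} (hs : s < 512) : BB.link (de s) = deL (lkL s) := by
  ext τ
  rw [Cpx.link, mem_filter, mem_deL]
  constructor
  · rintro ⟨h1, h2, h3⟩
    obtain ⟨m, hm, rfl, -⟩ := BB_mask h1
    refine ⟨m, ?_, rfl⟩
    rw [lkL, List.mem_filter, Bool.and_eq_true, beq_iff]
    refine ⟨List.mem_range.2 hm, ?_, (disjoint_iff_land hm).1 h3⟩
    rw [← de_mem_BB (or_lt9 hm hs), de_or]
    exact h2
  · rintro ⟨m, hm, rfl⟩
    have hlt := lkL_lt hm
    rw [lkL, List.mem_filter, Bool.and_eq_true, beq_iff] at hm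
    obtain ⟨-, h1, h2⟩ := hm
    rw [← de_mem_BB (or_lt9 hlt hs), de_or] at h1
    exact ⟨BB.down _ h1 _ subset_union_left, h1, (disjoint_iff_land hlt).2 h2⟩

theorem link_down (Δ : Cpx) (σ : Finset ℕ) : ∀ τ ∈ Δ.link σ, ∀ ρ ⊆ τ, ρ ∈ Δ.link σ := by
  intro τ hτ ρ hρ
  rw [Cpx.link, mem_filter] at hτ ⊢
  exact ⟨Δ.down _ hτ.1 _ hρ, Δ.down _ hτ.2.1 _ (union_subset_union_left hρ), hτ.2.2.mono_left hρ⟩

theorem link_acyc {s : ℕ} (hs : s < 512) (ps : List (ℕ × ℕ)) (h : collB ps (lkL s) = true) :
    Acyclic F (BB.link (de s)) := by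
  refine acyclic_of (V := range 9) ?_ ?_
  · intro σ hσ
    rw [Cpx.link, mem_filter] at hσ
    exact BB_range hσ.1
  · rw [link_eq hs]
    refine collB_acyc ps _ (fun m hm => lkL_lt hm) ?_ h
    rw [← link_eq hs]
    exact link_down BB _

theorem coll0 : collB C0 (lkL 0) = true := by decide +kernel

theorem coll1 : ∀ v < 9, collB (CL.getD v []) (lkL (2 ^ v)) = true := by decide +kernel

theorem BB_kfold : BB.KFoldAcyclic F 2 := by
  intro σ hσ hc
  have h : σ.card = 0 ∨ σ.card = 1 := by omega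
  rcases h with h | h
  · rw [card_eq_zero] at h
    subst h
    have h0 : (∅ : Finset ℕ) = de 0 := by
      ext i
      rw [mem_de, Nat.zero_testBit]
      simp
    rw [h0]
    exact link_acyc (by norm_num) C0 coll0
  · obtain ⟨v, rfl⟩ := card_eq_one.1 h
    have hv : v < 9 := mem_range.1 (BB_range hσ (mem_singleton_self v))
    rw [← de_pow (by omega : v < 32)]
    exact link_acyc (pow_lt9 hv) _ (coll1 v hv)

end Pool.Agent.Helper221.BID
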