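import Pool.Agent.Helper221.BID.NoDec

/-!
# The cone over a ball is a ball
-/

set_option autoImplicit false

namespace Pool.Agent.Helper221.BID

open Finset

/-- the cone over the unit ball, as a convex body -/
def CB (d : ℕ) : Set (EuclideanSpace ℝ (Fin d) × ℝ) := {p | 0 ≤ p.2 ∧ ‖p.1‖ ≤ 1 - p.2}

theorem CB_convex (d : ℕ) : Convex ℝ (CB d) := by
  intro x hx y hy a b ha hb hab
  obtain ⟨hx1, hx2⟩ := hx
  obtain ⟨hy1, hy2⟩ := hy
  refine ⟨?_, ?_⟩
  · show 0 ≤ a * x.2 + b * y.2
    positivity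
  · show ‖a • x.1 + b • y.1‖ ≤ 1 - (a * x.2 + b * y.2)
    have h1 : ‖a • x.1 + b • y.1‖ ≤ a * ‖x.1‖ + b * ‖y.1‖ := by
      refine (norm_add_le _ _).trans ?_
      rw [norm_smul, norm_smul, Real.norm_of_nonneg ha, Real.norm_of_nonneg hb]
    have h2 : a * ‖x.1‖ ≤ a * (1 - x.2) := mul_le_mul_of_nonneg_left hx2 ha
    have h3 : b * ‖y.1‖ ≤ b * (1 - y.2) := mul_le_mul_of_nonneg_left hy2 hb
    have h4 : a * (1 - x.2) + b * (1 - y.2) = 1 - (a * x.2 + b * y.2) := by
      linear_combination hab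
    linarith

theorem CB_closed (d : ℕ) : IsClosed (CB d) := by
  have h1 : IsClosed {p : EuclideanSpace ℝ (Fin d) × ℝ | 0 ≤ p.2} :=
    isClosed_le continuous_const continuous_snd
  have h2 : IsClosed {p : EuclideanSpace ℝ (Fin d) × ℝ | ‖p.1‖ ≤ 1 - p.2} :=
    isClosed_le continuous_fst.norm (continuous_const.sub continuous_snd)
  exact h1.inter h2

theorem CB_bounded (d : ℕ) : Bornology.IsBounded (CB d) := by
  refine (Metric.isBounded_closedBall (x := (0 : EuclideanSpace ℝ (Fin d) × ℝ)) (r := 1)).subset ?_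
  rintro p ⟨h1, h2⟩
  rw [mem_closedBall_zero_iff, Prod.norm_def, max_le_iff, Real.norm_eq_abs, abs_le]
  have := norm_nonneg p.1
  refine ⟨by linarith, by linarith, by linarith⟩

theorem CB_compact (d : ℕ) : IsCompact (CB d) :=
  Metric.isCompact_of_isClosed_isBounded (CB_closed d) (CB_bounded d)

theorem CB_interior (d : ℕ) : (interior (CB d)).Nonempty := by
  refine ⟨(0, 1 / 2), ?_⟩
  rw [mem_interior]
  refine ⟨{p | 0 < p.2 ∧ ‖p.1‖ < 1 - p.2}, fun p hp => ⟨hp.1.le, hp.2.le⟩, ?_, ?_⟩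
  · have h1 : IsOpen {p : EuclideanSpace ℝ (Fin d) × ℝ | 0 < p.2} :=
      isOpen_lt continuous_const continuous_snd
    have h2 : IsOpen {p : EuclideanSpace ℝ (Fin d) × ℝ | ‖p.1‖ < 1 - p.2} :=
      isOpen_lt continuous_fst.norm (continuous_const.sub continuous_snd)
    exact h1.inter h2
  · refine ⟨by norm_num, ?_⟩
    show ‖(0 : EuclideanSpace ℝ (Fin d))‖ < 1 - 1 / 2
    rw [norm_zero]
    norm_num

theorem CB_ball (d : ℕ) :
    Nonempty (CB d ≃ₜ Metric.closedBall (0 : EuclideanSpace ℝ (Fin (d + 1))) 1) := by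
  have L : (EuclideanSpace ℝ (Fin d) × ℝ) ≃L[ℝ] EuclideanSpace ℝ (Fin (d + 1)) :=
    ContinuousLinearEquiv.ofFinrankEq (by simp)
  have hc : Convex ℝ (L '' CB d) := (CB_convex d).linear_image L.toLinearMap
  have hcl : IsClosed (L '' CB d) := ((CB_compact d).image L.continuous).isClosed
  have hint : (interior (L '' CB d)).Nonempty := by
    have h1 : L '' interior (CB d) = interior (L '' CB d) := L.toHomeomorph.image_interior (CB d)
    rw [← h1]
    exact (CB_interior d).image _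
  have hb : Bornology.IsBounded (L '' CB d) := ((CB_compact d).image L.continuous).isBounded
  obtain ⟨h, -, h2, -⟩ := exists_homeomorph_image_interior_closure_frontier_eq_unitBall hc hint hb
  rw [hcl.closure_eq] at h2
  exact ⟨(L.toHomeomorph.image (CB d)).trans
    ((h.image (L '' CB d)).trans (Homeomorph.setCongr h2))⟩

section Cone

variable {Δ : Cpx} {n d : ℕ}
  (h : Δ.space ≃ₜ Metric.closedBall (0 : EuclideanSpace ℝ (Fin d)) 1)

open Classical in
/-- the inverse homeomorphism, extended by zero -/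
noncomputable def gg (h : Δ.space ≃ₜ Metric.closedBall (0 : EuclideanSpace ℝ (Fin d)) 1)
    (u : EuclideanSpace ℝ (Fin d)) : ℕ → ℝ :=
  if hu : u ∈ Metric.closedBall (0 : EuclideanSpace ℝ (Fin d)) 1 then
    (h.symm ⟨u, hu⟩ : ℕ → ℝ) else 0

theorem gg_eq {u : EuclideanSpace ℝ (Fin d)}
    (hu : u ∈ Metric.closedBall (0 : EuclideanSpace ℝ (Fin d)) 1) :
    gg h u = (h.symm ⟨u, hu⟩ : ℕ → ℝ) := dif_pos hu

theorem gg_mem {u : EuclideanSpace ℝ (Fin d)}
    (hu : u ∈ Metric.closedBall (0 : EuclideanSpace ℝ (Fin d)) 1) : gg h u ∈ Δ.space := by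
  rw [gg_eq h hu]
  exact (h.symm ⟨u, hu⟩).2

theorem gg_cont : ContinuousOn (gg h) (Metric.closedBall (0 : EuclideanSpace ℝ (Fin d)) 1) := by
  rw [continuousOn_iff_continuous_domRestrict]
  have h1 : Set.domRestrict (Metric.closedBall (0 : EuclideanSpace ℝ (Fin d)) 1) (gg h) =
      fun u => (h.symm u : ℕ → ℝ) := by
    funext u
    exact gg_eq h u.2
  rw [h1]
  exact continuous_subtype_val.comp h.symm.continuous

theorem space_le_one {x : ℕ → ℝ} (hx : x ∈ Δ.space) (v : ℕ) : x v ≤ 1 := by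
  obtain ⟨h0, σ, _, h1, h2⟩ := hx
  by_cases hv : v ∈ σ
  · rw [← h2]
    exact single_le_sum (fun i _ => h0 i) hv
  · rw [h1 v hv]
    norm_num

theorem space_fresh (hn : Δ.Fresh n) {x : ℕ → ℝ} (hx : x ∈ Δ.space) : x n = 0 := by
  obtain ⟨_, σ, hσ, h1, _⟩ := hx
  exact h1 n (hn σ hσ)

/-- the map from the convex body to the cone -/
noncomputable def KK (n : ℕ) (h : Δ.space ≃ₜ Metric.closedBall (0 : EuclideanSpace ℝ (Fin d)) 1)
    (p : EuclideanSpace ℝ (Fin d) × ℝ) : ℕ → ℝ :=
  fun v => if v = n then p.2 else (1 - p.2) * gg h ((1 - p.2)⁻¹ • p.1) v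

theorem smul_mem {p : EuclideanSpace ℝ (Fin d) × ℝ} (hp : p ∈ CB d) :
    (1 - p.2)⁻¹ • p.1 ∈ Metric.closedBall (0 : EuclideanSpace ℝ (Fin d)) 1 := by
  obtain ⟨h1, h2⟩ := hp
  rw [mem_closedBall_zero_iff, norm_smul]
  have h3 : 0 ≤ 1 - p.2 := (norm_nonneg _).trans h2
  rw [Real.norm_of_nonneg (inv_nonneg.2 h3)]
  rcases h3.eq_or_lt with h4 | h4
  · rw [← h4]
    simp
  · rw [inv_mul_le_iff₀ h4, mul_one]
    exact h2

/-- the projection to the base -/
noncomputable def ww (d : ℕ) (p : EuclideanSpace ℝ (Fin d) × ℝ) : EuclideanSpace ℝ (Fin d) :=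
  (1 - p.2)⁻¹ • p.1

theorem KK_cont : ContinuousOn (KK n h) (CB d) := by
  rw [continuousOn_pi]
  intro v
  by_cases hv : v = n
  · have : (fun p => KK n h p v) = fun p => p.2 := by
      ext p
      simp [KK, hv]
    rw [this]
    exact continuous_snd.continuousOn
  · have h1 : (fun p => KK n h p v) =
        fun p => (1 - p.2) * gg h ((1 - p.2)⁻¹ • p.1) v := by
      ext p
      simp [KK, hv]
    rw [h1]
    intro p hp
    by_cases hp1 : 1 - p.2 = 0
    · -- at the apex
      have hval : (1 - p.2) * gg h ((1 - p.2)⁻¹ • p.1) v = 0 := by rw [hp1, zero_mul]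
      rw [ContinuousWithinAt, hval]
      have hlim : Filter.Tendsto (fun q : EuclideanSpace ℝ (Fin d) × ℝ => 1 - q.2)
          (nhdsWithin p (CB d)) (nhds 0) := by
        have : ContinuousWithinAt (fun q : EuclideanSpace ℝ (Fin d) × ℝ => 1 - q.2) (CB d) p :=
          (continuous_const.sub continuous_snd).continuousWithinAt
        rw [ContinuousWithinAt, hp1] at this
        exact this
      refine squeeze_zero' ?_ ?_ hlim
      · filter_upwards [self_mem_nhdsWithin] with q hq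
        exact mul_nonneg ((norm_nonneg _).trans hq.2) ((gg_mem h (smul_mem hq)).1 v)
      · filter_upwards [self_mem_nhdsWithin] with q hq
        exact mul_le_of_le_one_right ((norm_nonneg _).trans hq.2)
          (space_le_one (gg_mem h (smul_mem hq)) v)
    · have h2 : ContinuousWithinAt (fun q : EuclideanSpace ℝ (Fin d) × ℝ => (1 - q.2)⁻¹ • q.1)
          (CB d) p := by
        have h3 : ContinuousAt (fun q : EuclideanSpace ℝ (Fin d) × ℝ => (1 - q.2)⁻¹) p :=
          (continuous_const.sub continuous_snd).continuousAt.inv₀ hp1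
        exact (h3.smul continuous_fst.continuousAt).continuousWithinAt
      have hg : ContinuousWithinAt (gg h) (Metric.closedBall (0 : EuclideanSpace ℝ (Fin d)) 1)
          (ww d p) := gg_cont h _ (smul_mem hp)
      have hmaps : Set.MapsTo (ww d) (CB d)
          (Metric.closedBall (0 : EuclideanSpace ℝ (Fin d)) 1) := fun q hq => smul_mem hq
      have h3 : ContinuousWithinAt (gg h ∘ ww d) (CB d) p :=
        ContinuousWithinAt.comp (f := ww d) (g := gg h) hg h2 hmaps
      have h4 : ContinuousWithinAt (fun q : EuclideanSpace ℝ (Fin d) × ℝ =>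
          gg h ((1 - q.2)⁻¹ • q.1) v) (CB d) p := (continuousWithinAt_pi.1 h3) v
      exact ((continuous_const.sub continuous_snd).continuousWithinAt).mul h4

theorem KK_mem (hn : Δ.Fresh n) {p : EuclideanSpace ℝ (Fin d) × ℝ} (hp : p ∈ CB d) :
    KK n h p ∈ (cone Δ n).space := by
  have h0 : 0 ≤ 1 - p.2 := (norm_nonneg _).trans hp.2
  obtain ⟨g0, σ, hσ, g1, g2⟩ := gg_mem h (smul_mem hp)
  refine ⟨?_, insert n σ, ?_, ?_, ?_⟩
  · intro v
    rw [KK]
    split_ifs
    · exact hp.1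
    · exact mul_nonneg h0 (g0 v)
  · rw [mem_cone hn, erase_insert (hn σ hσ)]
    exact hσ
  · intro v hv
    rw [mem_insert, not_or] at hv
    rw [KK, if_neg hv.1, g1 v hv.2, mul_zero]
  · rw [sum_insert (hn σ hσ)]
    have h1 : ∑ v ∈ σ, KK n h p v = ∑ v ∈ σ, (1 - p.2) * gg h ((1 - p.2)⁻¹ • p.1) v := by
      refine sum_congr rfl fun v hv => ?_
      rw [KK, if_neg]
      rintro rfl
      exact hn σ hσ hv
    rw [h1, ← mul_sum, g2, KK, if_pos rfl]
    ring

theorem KK_inj (hn : Δ.Fresh n) : Set.InjOn (KK n h) (CB d) := by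
  intro p hp q hq hpq
  have ht : p.2 = q.2 := by
    have := congrFun hpq n
    rw [KK, KK, if_pos rfl, if_pos rfl] at this
    exact this
  refine Prod.ext ?_ ht
  have h0 : 0 ≤ 1 - p.2 := (norm_nonneg _).trans hp.2
  rcases h0.eq_or_lt with h1 | h1
  · have h2 := hp.2
    have h3 := hq.2
    rw [← ht, ← h1] at h3
    rw [← h1] at h2
    rw [norm_le_zero_iff.1 h2, norm_le_zero_iff.1 h3]
  · have h2 : gg h ((1 - p.2)⁻¹ • p.1) = gg h ((1 - q.2)⁻¹ • q.1) := by
      funext v
      by_cases hv : v = n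
      · subst hv
        rw [space_fresh hn (gg_mem h (smul_mem hp)), space_fresh hn (gg_mem h (smul_mem hq))]
      · have := congrFun hpq v
        rw [KK, KK, if_neg hv, if_neg hv, ← ht] at this
        rw [← ht]
        exact mul_left_cancel₀ h1.ne' this
    rw [gg_eq h (smul_mem hp), gg_eq h (smul_mem hq)] at h2
    have h3 := h.symm.injective (Subtype.ext h2)
    rw [Subtype.mk.injEq, ← ht] at h3
    exact smul_right_injective _ (inv_ne_zero h1.ne') h3

theorem KK_surj (hn : Δ.Fresh n) {y : ℕ → ℝ} (hy : y ∈ (cone Δ n).space) :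
    ∃ p ∈ CB d, KK n h p = y := by
  obtain ⟨y0, σ, hσ, y1, y2⟩ := hy
  rw [mem_cone hn] at hσ
  set ρ := σ.erase n with hρ
  have hsum : y n + ∑ v ∈ ρ, y v = 1 := by
    by_cases hnσ : n ∈ σ
    · rw [← y2, ← insert_erase hnσ, sum_insert (notMem_erase _ _)]
    · rw [y1 n hnσ, zero_add, hρ, erase_eq_of_notMem hnσ]
      exact y2
  have hρ0 : 0 ≤ ∑ v ∈ ρ, y v := sum_nonneg fun v _ => y0 v
  have hout : ∀ v, v ≠ n → v ∉ ρ → y v = 0 := by
    intro v hvn hv
    exact y1 v (fun hcon => hv (mem_erase.2 ⟨hvn, hcon⟩))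
  rcases hρ0.eq_or_lt with h1 | h1
  · -- the apex
    have hyn : y n = 1 := by linarith
    refine ⟨(0, 1), ⟨by norm_num, by simp⟩, ?_⟩
    funext v
    rw [KK]
    dsimp only
    split_ifs with hv
    · rw [hv, hyn]
    · rw [sub_self, zero_mul]
      by_cases hvρ : v ∈ ρ
      · exact ((sum_eq_zero_iff_of_nonneg (fun i _ => y0 i)).1 h1.symm v hvρ).symm
      · exact (hout v hv hvρ).symm
  · set s := ∑ v ∈ ρ, y v with hs
    have hsn : 1 - y n = s := by linarith
    have hx : (fun v => if v = n then 0 else s⁻¹ * y v) ∈ Δ.space := by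
      refine ⟨?_, ρ, hσ, ?_, ?_⟩
      · intro v
        dsimp only
        split_ifs
        · exact le_refl _
        · exact mul_nonneg (inv_nonneg.2 h1.le) (y0 v)
      · intro v hv
        dsimp only
        split_ifs with hvn
        · rfl
        · rw [hout v hvn hv, mul_zero]
      · have : ∑ v ∈ ρ, (if v = n then 0 else s⁻¹ * y v) = ∑ v ∈ ρ, s⁻¹ * y v := by
          refine sum_congr rfl fun v hv => ?_
          rw [if_neg (ne_of_mem_erase hv)]
        rw [this, ← mul_sum, ← hs, inv_mul_cancel₀ h1.ne']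
    set w := h ⟨_, hx⟩ with hw
    have hwn : ‖(w : EuclideanSpace ℝ (Fin d))‖ ≤ 1 := mem_closedBall_zero_iff.1 w.2
    have hback : (1 - y n)⁻¹ • (s • (w : EuclideanSpace ℝ (Fin d))) = w := by
      rw [hsn, smul_smul, inv_mul_cancel₀ h1.ne', one_smul]
    refine ⟨(s • (w : EuclideanSpace ℝ (Fin d)), y n), ⟨y0 n, ?_⟩, ?_⟩
    · show ‖s • (w : EuclideanSpace ℝ (Fin d))‖ ≤ 1 - y n
      rw [norm_smul, Real.norm_of_nonneg h1.le, hsn]
      exact mul_le_of_le_one_right h1.le hwn
    · funext v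
      rw [KK]
      dsimp only
      split_ifs with hv
      · rw [hv]
      · rw [hback, gg_eq h w.2, hsn]
        have h5 : h.symm ⟨(w : EuclideanSpace ℝ (Fin d)), w.2⟩ = ⟨_, hx⟩ := by
          rw [Subtype.coe_eta, hw, Homeomorph.symm_apply_apply]
        rw [h5]
        show s * (if v = n then 0 else s⁻¹ * y v) = y v
        rw [if_neg hv, mul_inv_cancel_left₀ h1.ne']

end Cone

/-- The cone over a ball is a ball. -/
theorem cone_ball {Δ : Cpx} {n d : ℕ} (hn : Δ.Fresh n) (h : Δ.IsBall d) :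
    (cone Δ n).IsBall (d + 1) := by
  obtain ⟨h⟩ := h
  obtain ⟨e⟩ := CB_ball d
  let f : CB d → (cone Δ n).space := fun p => ⟨KK n h p, KK_mem h hn p.2⟩
  have hf : Function.Bijective f := by
    constructor
    · intro p q hpq
      exact Subtype.ext (KK_inj h hn p.2 q.2 (congrArg Subtype.val hpq))
    · intro y
      obtain ⟨p, hp, hpy⟩ := KK_surj h hn y.2
      exact ⟨⟨p, hp⟩, Subtype.ext hpy⟩
  have hfc : Continuous f := by
    refine Continuous.subtype_mk ?_ _
    exact continuousOn_iff_continuous_domRestrict.1 (KK_cont (n := n) h)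
  have : CompactSpace (CB d) := isCompact_iff_compactSpace.1 (CB_compact d)
  have hfc' : Continuous (Equiv.ofBijective f hf) := hfc
  exact ⟨(hfc'.homeoOfEquivCompactToT2).symm.trans e⟩

end Pool.Agent.Helper221.BID
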