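import Pool.Agent.Helper221.BID.Acyc
import Pool.Agent.W296.NP.Chain
import Pool.Agent.H933R3.Ball

/-!
# The ball with 9 vertices and 19 tetrahedra
-/

set_option autoImplicit false

namespace Pool.Agent.Helper221.BID

open Finset Pool.Agent.Helper175.NS Pool.Agent.W296.NP

/-- the tetrahedra as bit masks -/
def ML : List ℕ := [
  195, 323, 387, 45, 141, 149, 337, 401, 294, 58,
  154, 178, 418, 156, 284, 300, 340, 312, 432]

/-- stellar exchanges leading from the complex to a single tetrahedron -/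
def MS : List (ℕ × ℕ) := [
  (264, 52), (160, 274), (8, 160), (132, 49), (384, 19), (144, 35), (128, 96), (18, 289),
  (48, 261), (16, 69), (3, 352), (32, 3), (1, 70)]

/-- collapses of the complex: `(t, x)` removes the faces with masks `t` and `t + 2 ^ x` -/
def C0 : List (ℕ × ℕ) := [
  (324, 4), (137, 2), (276, 3), (21, 7), (140, 4), (336, 0), (273, 7), (262, 5),
  (400, 5), (290, 7), (162, 4), (385, 1), (50, 3), (193, 1), (56, 8), (321, 1),
  (26, 7), (292, 3), (41, 2), (320, 1), (18, 7), (33, 2), (6, 5), (257, 1),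
  (9, 2), (260, 3), (258, 7), (36, 3), (68, 4), (192, 1), (5, 7), (66, 0),
  (65, 4), (17, 7), (132, 4), (384, 5), (12, 4), (160, 4), (129, 1), (130, 3),
  (10, 5), (40, 8), (48, 8), (272, 3), (144, 3), (1, 1), (128, 3), (4, 4),
  (2, 5), (64, 4), (16, 3), (8, 8), (32, 8), (0, 8)]

/-- collapses of the vertex links -/
def CL : List (List (ℕ × ℕ)) := [
  [(80, 8), (320, 1), (258, 7), (20, 7), (132, 3), (384, 4), (66, 7), (36, 3), (32, 3), (256, 4), (16, 7), (64, 7), (2, 7), (4, 3), (128, 3), (0, 3)],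
  [(192, 0), (320, 0), (136, 4), (24, 5), (129, 8), (384, 5), (160, 4), (260, 5), (64, 0), (128, 4), (8, 5), (16, 5), (1, 8), (4, 5), (256, 5), (0, 5)],
  [(80, 8), (258, 5), (17, 7), (144, 3), (272, 3), (264, 5), (136, 0), (33, 3), (128, 0), (16, 3), (64, 8), (1, 3), (256, 5), (2, 5), (32, 3), (0, 3)],
  [(130, 4), (129, 2), (5, 5), (36, 8), (260, 4), (132, 4), (288, 4), (34, 4), (128, 4), (4, 4), (256, 4), (1, 5), (2, 4), (32, 4), (0, 4)],
  [(65, 8), (320, 2), (5, 7), (257, 7), (384, 5), (288, 3), (260, 3), (132, 3), (136, 1), (130, 5), (40, 1), (1, 7), (256, 3), (64, 2), (128, 5), (4, 3), (8, 1), (32, 1), (0, 1)],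
  [(10, 4), (18, 7), (5, 3), (24, 8), (264, 2), (260, 1), (272, 7), (258, 7), (16, 7), (256, 7), (1, 3), (8, 2), (128, 1), (2, 2), (0, 2)],
  [(130, 0), (258, 0), (17, 8), (260, 4), (128, 0), (4, 4), (16, 8), (256, 0), (2, 0), (0, 0)],
  [(66, 0), (9, 2), (3, 8), (12, 4), (257, 4), (20, 0), (272, 5), (48, 1), (34, 8), (18, 3), (64, 0), (4, 0), (1, 4), (32, 8), (16, 3), (8, 1), (256, 1), (0, 1)],
  [(66, 0), (68, 4), (3, 7), (65, 4), (130, 5), (34, 2), (129, 4), (144, 5), (36, 3), (40, 4), (24, 2), (2, 2), (8, 2), (64, 4), (1, 4), (4, 4), (128, 5), (16, 5), (0, 5)]]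

/-- a decomposition into rank 2 boolean intervals -/
def DL : List (ℕ × ℕ) := [
  (0, 384), (1, 385), (2, 386), (3, 387), (4, 324), (5, 149), (6, 294), (8, 296),
  (9, 141), (10, 58), (12, 300), (16, 400), (17, 401), (18, 178), (20, 340), (24, 284),
  (32, 292), (33, 45), (34, 418), (48, 312), (64, 336), (65, 337), (66, 323), (132, 156),
  (136, 154), (160, 432), (192, 195)]

/-- `m` is the mask of a face -/
def isF (m : ℕ) : Bool := ML.any (fun f => Nat.beq (f &&& m) m)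

theorem ML_lt : ∀ m ∈ ML, m < 512 := by decide +kernel

theorem lt31 {m : ℕ} (h : m < 512) : m < 2 ^ 31 := h.trans (by norm_num)

/-- The complex. -/
def BB : Cpx where
  faces := (deL ML).biUnion Finset.powerset
  empty_mem := by
    rw [mem_biUnion]
    exact ⟨de 195, mem_deL.2 ⟨195, by decide, rfl⟩, empty_mem_powerset _⟩
  down := by
    intro σ hσ τ hτ
    rw [mem_biUnion] at hσ ⊢
    obtain ⟨f, hf, h⟩ := hσ
    exact ⟨f, hf, mem_powerset.2 (hτ.trans (mem_powerset.1 h))⟩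

theorem mem_BB {σ : Finset ℕ} : σ ∈ BB.faces ↔ ∃ f ∈ ML, σ ⊆ de f := by
  show σ ∈ (deL ML).biUnion Finset.powerset ↔ _
  rw [mem_biUnion]
  constructor
  · rintro ⟨F, hF, h⟩
    obtain ⟨f, hf, rfl⟩ := mem_deL.1 hF
    exact ⟨f, hf, mem_powerset.1 h⟩
  · rintro ⟨f, hf, h⟩
    exact ⟨de f, mem_deL.2 ⟨f, hf, rfl⟩, mem_powerset.2 h⟩

theorem de_mem_BB {m : ℕ} (hm : m < 512) : de m ∈ BB.faces ↔ isF m = true := by
  rw [mem_BB, isF, List.any_eq_true]
  constructor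
  · rintro ⟨f, hf, h⟩
    exact ⟨f, hf, beq_iff.2 ((land_eq' (lt31 hm)).2 h)⟩
  · rintro ⟨f, hf, h⟩
    exact ⟨f, hf, (land_eq' (lt31 hm)).1 (beq_iff.1 h)⟩

/-- the mask of a set -/
def mkm (σ : Finset ℕ) : ℕ := Nat.ofBits (fun i : Fin 9 => decide (i.val ∈ σ))

theorem mkm_lt (σ : Finset ℕ) : mkm σ < 512 := Nat.ofBits_lt_two_pow _

theorem de_mkm {σ : Finset ℕ} (h : σ ⊆ range 9) : de (mkm σ) = σ := by
  ext i
  rw [mem_de]
  rcases Nat.lt_or_ge i 9 with hi | hi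
  · rw [mkm, Nat.testBit_ofBits_lt _ _ hi]
    simp only [decide_eq_true_eq]
    exact ⟨fun h => h.2, fun h => ⟨by omega, h⟩⟩
  · constructor
    · rintro ⟨-, h1⟩
      rw [Nat.testBit_lt_two_pow (lt_of_lt_of_le (mkm_lt σ) (Nat.pow_le_pow_right (n := 2)
        (by norm_num) hi))] at h1
      exact absurd h1 (by simp)
    · intro h1
      have := mem_range.1 (h h1)
      omega

theorem BB_range {σ : Finset ℕ} (h : σ ∈ BB.faces) : σ ⊆ range 9 := by
  obtain ⟨f, hf, h1⟩ := mem_BB.1 h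
  intro i hi
  have h2 := h1 hi
  rw [mem_de] at h2
  rw [mem_range]
  by_contra hcon
  rw [Nat.testBit_lt_two_pow (lt_of_lt_of_le (ML_lt f hf) (Nat.pow_le_pow_right (n := 2)
    (by norm_num) (not_lt.1 hcon)))] at h2
  exact absurd h2.2 (by simp)

theorem BB_mask {σ : Finset ℕ} (h : σ ∈ BB.faces) : ∃ m < 512, de m = σ ∧ isF m = true := by
  refine ⟨mkm σ, mkm_lt σ, de_mkm (BB_range h), ?_⟩
  rw [← de_mem_BB (mkm_lt σ), de_mkm (BB_range h)]
  exact h

theorem de_inj {m m' : ℕ} (hm : m < 2 ^ 31) (hm' : m' < 2 ^ 31) (h : de m = de m') : m = m' := by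
  apply Nat.eq_of_testBit_eq
  intro i
  rcases Nat.lt_or_ge i 31 with hi | hi
  · have h1 : i ∈ de m ↔ i ∈ de m' := by rw [h]
    rw [mem_de, mem_de] at h1
    have h2 : (m.testBit i = true) ↔ (m'.testBit i = true) :=
      ⟨fun h => (h1.1 ⟨by omega, h⟩).2, fun h => (h1.2 ⟨by omega, h⟩).2⟩
    exact Bool.eq_iff_iff.2 h2
  · rw [testBit_lt hm hi, testBit_lt hm' hi]

/-! ### The obstruction -/

theorem de_or (a b : ℕ) : de (a ||| b) = de a ∪ de b := by
  ext i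
  rw [mem_union, mem_de, mem_de, mem_de, Nat.testBit_or, Bool.or_eq_true]
  tauto

theorem de_pow {a : ℕ} (ha : a < 32) : de (2 ^ a) = {a} := by
  ext i
  rw [mem_de, mem_singleton, Nat.testBit_two_pow]
  simp only [decide_eq_true_eq]
  constructor
  · rintro ⟨-, rfl⟩; rfl
  · rintro rfl; exact ⟨ha, rfl⟩

theorem obs_all : ∀ a < 9, ∀ b < 9, a ≠ b → isF (2 ^ a ||| 2 ^ b) = true →
    ∃ x < 9, isF (2 ^ a ||| 2 ^ x) = true ∧ isF (2 ^ b ||| 2 ^ x) = true ∧
      isF (2 ^ a ||| (2 ^ b ||| 2 ^ x)) = false := by decide +kernel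

theorem pow_lt9 {a : ℕ} (ha : a < 9) : 2 ^ a < 512 := by
  have : 2 ^ a < 2 ^ 9 := Nat.pow_lt_pow_right (by norm_num) ha
  simpa using this

theorem or_lt9 {a b : ℕ} (ha : a < 512) (hb : b < 512) : a ||| b < 512 :=
  Nat.or_lt_two_pow (n := 9) ha hb

theorem BB_obs : BB.Obs 2 := by
  intro F hF hc
  obtain ⟨a, b, hab, rfl⟩ := card_eq_two.1 hc
  have ha : a < 9 := mem_range.1 (BB_range hF (by simp))
  have hb : b < 9 := mem_range.1 (BB_range hF (by simp))
  have pr : ∀ u < 9, ∀ v < 9, (({u, v} : Finset ℕ) ∈ BB.faces ↔ isF (2 ^ u ||| 2 ^ v) = true) := by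
    intro u hu v hv
    rw [← de_mem_BB (or_lt9 (pow_lt9 hu) (pow_lt9 hv)), de_or, de_pow (by omega), de_pow (by omega)]
    rfl
  obtain ⟨x, hx, h1, h2, h3⟩ := obs_all a ha b hb hab ((pr a ha b hb).1 hF)
  refine ⟨a, by simp, b, by simp, x, (pr a ha x hx).2 h1, (pr b hb x hx).2 h2, ?_⟩
  intro h4
  have h5 : ({a, b, x} : Finset ℕ) = de (2 ^ a ||| (2 ^ b ||| 2 ^ x)) := by
    rw [de_or, de_or, de_pow (by omega), de_pow (by omega), de_pow (by omega)]
    rfl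
  rw [h5, de_mem_BB (or_lt9 (pow_lt9 ha) (or_lt9 (pow_lt9 hb) (pow_lt9 hx))), h3] at h4
  exact absurd h4 (by simp)

/-! ### Dimension -/

theorem BB_dim : BB.HasDim 3 := by
  have hc : ∀ m ∈ ML, (de m).card = 4 := by decide +kernel
  constructor
  · intro σ hσ
    obtain ⟨f, hf, h⟩ := mem_BB.1 hσ
    exact (card_le_card h).trans (le_of_eq (hc f hf))
  · exact ⟨de 195, mem_BB.2 ⟨195, by decide, Subset.refl _⟩, hc _ (by decide)⟩

/-! ### The decomposition -/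

theorem DL_ok : ∀ p ∈ DL, Nat.beq (p.2 &&& p.1) p.1 = true ∧ isF p.2 = true ∧ p.1 < 512 ∧
    p.2 < 512 ∧ (de p.2 \ de p.1).card = 2 := by decide +kernel

theorem DL_cover : ∀ m < 512, isF m = true →
    (DL.filter (fun p => Nat.beq (m &&& p.1) p.1 && Nat.beq (p.2 &&& m) m)).length = 1 := by
  decide +kernel

theorem BB_decomp : ∃ D, BB.IsDecomp 2 D := by
  refine ⟨(DL.map (fun p => (de p.1, de p.2))).toFinset, ?_, ?_⟩
  · intro q hq
    rw [List.mem_toFinset, List.mem_map] at hq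
    obtain ⟨p, hp, rfl⟩ := hq
    obtain ⟨h1, h2, h3, h4, h5⟩ := DL_ok p hp
    exact ⟨(land_eq' (lt31 h3)).1 (beq_iff.1 h1), (de_mem_BB h4).2 h2, h5⟩
  · intro τ hτ
    obtain ⟨m, hm, rfl, hF⟩ := BB_mask hτ
    have h1 := DL_cover m hm hF
    obtain ⟨p, hp⟩ := List.length_eq_one_iff.1 h1
    have hmem : ∀ q, q ∈ DL → (de q.1 ⊆ de m ∧ de m ⊆ de q.2) → q = p := by
      intro q hq hq2
      have : q ∈ DL.filter (fun p => Nat.beq (m &&& p.1) p.1 && Nat.beq (p.2 &&& m) m) := by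
        rw [List.mem_filter, Bool.and_eq_true]
        exact ⟨hq, beq_iff.2 ((land_eq' (lt31 (DL_ok q hq).2.2.1)).2 hq2.1),
          beq_iff.2 ((land_eq' (lt31 hm)).2 hq2.2)⟩
      rw [hp, List.mem_singleton] at this
      exact this
    have hp' : p ∈ DL.filter (fun p => Nat.beq (m &&& p.1) p.1 && Nat.beq (p.2 &&& m) m) := by
      rw [hp]; exact List.mem_singleton_self _
    rw [List.mem_filter, Bool.and_eq_true] at hp'
    obtain ⟨hp1, hp2, hp3⟩ := hp'
    refine ⟨(de p.1, de p.2), ⟨?_, (land_eq' (lt31 (DL_ok p hp1).2.2.1)).1 (beq_iff.1 hp2),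
      (land_eq' (lt31 hm)).1 (beq_iff.1 hp3)⟩, ?_⟩
    · rw [List.mem_toFinset, List.mem_map]
      exact ⟨p, hp1, rfl⟩
    · rintro r ⟨hr, hr1, hr2⟩
      rw [List.mem_toFinset, List.mem_map] at hr
      obtain ⟨q, hq, rfl⟩ := hr
      rw [hmem q hq ⟨hr1, hr2⟩]

/-! ### The ball -/

theorem space_eq_Sp : BB.space = Sp (deL ML) := by
  ext x
  constructor
  · rintro ⟨h0, σ, hσ, h1, h2⟩
    obtain ⟨f, hf, h3⟩ := mem_BB.1 hσ
    refine ⟨h0, de f, mem_deL.2 ⟨f, hf, rfl⟩, fun v hv => h1 v (fun h => hv (h3 h)), ?_⟩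
    rw [← h2]
    exact (sum_subset h3 (fun i _ hi => h1 i hi)).symm
  · rintro ⟨h0, F, hF, h1, h2⟩
    obtain ⟨f, hf, rfl⟩ := mem_deL.1 hF
    exact ⟨h0, de f, mem_BB.2 ⟨f, hf, Subset.refl _⟩, h1, h2⟩

theorem chain_ok : chainE ML MS [326] = true := by decide +kernel

theorem BB_ball : BB.IsBall 3 := by
  obtain ⟨e2⟩ := chainE_homeo MS ML [326] (fun m hm => lt31 (ML_lt m hm)) chain_ok
  have h1 : deL [326] = {de 326} := rfl
  rw [h1] at e2
  obtain ⟨e3⟩ := Pool.Agent.H933R3.simplex_ball (de 326) 3 (by decide +kernel)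
  exact ⟨(Homeomorph.setCongr space_eq_Sp).trans (e2.trans e3)⟩

end Pool.Agent.Helper221.BID
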