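import Mathlib

/-!
# Simplicial complexes, `k`-fold acyclicity and boolean interval decompositions
-/

set_option autoImplicit false

namespace Pool.Agent.Helper221.BID

open Finset

/-- A finite simplicial complex with vertices in `ℕ`: a finite family of finite sets containing
the empty set and closed under taking subsets. -/
structure Cpx where
  faces : Finset (Finset ℕ)
  empty_mem : ∅ ∈ faces
  down : ∀ σ ∈ faces, ∀ τ ⊆ σ, τ ∈ faces

/-- The geometric realization in barycentric coordinates (topology induced from `ℕ → ℝ`). -/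
def Cpx.space (Δ : Cpx) : Set (ℕ → ℝ) :=
  {x | (∀ v, 0 ≤ x v) ∧ ∃ σ ∈ Δ.faces, (∀ v, v ∉ σ → x v = 0) ∧ ∑ v ∈ σ, x v = 1}

/-- `Δ` is a simplicial ball of dimension `d`. -/
def Cpx.IsBall (Δ : Cpx) (d : ℕ) : Prop :=
  Nonempty (Δ.space ≃ₜ Metric.closedBall (0 : EuclideanSpace ℝ (Fin d)) 1)

/-- The geometric realization of `Δ` embeds topologically into `ℝ^d`. -/
def Cpx.Embeds (Δ : Cpx) (d : ℕ) : Prop :=
  ∃ f : Δ.space → EuclideanSpace ℝ (Fin d), Topology.IsEmbedding f

/-- `Δ` has dimension `d`: the largest faces have `d + 1` vertices. -/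
def Cpx.HasDim (Δ : Cpx) (d : ℕ) : Prop :=
  (∀ σ ∈ Δ.faces, σ.card ≤ d + 1) ∧ ∃ σ ∈ Δ.faces, σ.card = d + 1

/-- the vertices of a family of sets -/
def verts (A : Finset (Finset ℕ)) : Finset ℕ := A.biUnion id

/-- The simplicial boundary of a chain `c` on the complex `A` (simplices oriented by the order of
`ℕ`; the empty simplex is included, so this is the augmented chain complex, all degrees together):
the value at `τ` is the signed sum of the values of `c` at the simplices `τ ∪ {x}`. -/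
def bd {F : Type*} [Field F] (A : Finset (Finset ℕ)) (c : Finset ℕ → F) (τ : Finset ℕ) : F :=
  ∑ x ∈ verts A \ τ, (-1) ^ (τ.filter (fun y => y < x)).card * c (insert x τ)

/-- All reduced homology groups of the complex `A` over the field `F` vanish: every cycle (a chain
supported on `A` with zero boundary) is a boundary of a chain supported on `A`. -/
def Acyclic (F : Type*) [Field F] (A : Finset (Finset ℕ)) : Prop :=
  ∀ c : Finset ℕ → F, (∀ σ, σ ∉ A → c σ = 0) → (∀ τ, bd A c τ = 0) →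
    ∃ b : Finset ℕ → F, (∀ σ, σ ∉ A → b σ = 0) ∧ ∀ τ, bd A b τ = c τ

/-- The link of `σ`. -/
def Cpx.link (Δ : Cpx) (σ : Finset ℕ) : Finset (Finset ℕ) :=
  Δ.faces.filter (fun τ => τ ∪ σ ∈ Δ.faces ∧ Disjoint τ σ)

/-- `Δ` is `k`-fold acyclic over `F`: the links of all faces with fewer than `k` vertices are
acyclic. -/
def Cpx.KFoldAcyclic (F : Type*) [Field F] (Δ : Cpx) (k : ℕ) : Prop :=
  ∀ σ ∈ Δ.faces, σ.card < k → Acyclic F (Δ.link σ)

/-- `D`, a set of pairs `(x, y)`, is a decomposition of the face poset of `Δ` into disjoint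
rank `k` boolean intervals `[x, y] = {τ | x ⊆ τ ⊆ y}`, `|y \ x| = k`. -/
def Cpx.IsDecomp (Δ : Cpx) (k : ℕ) (D : Finset (Finset ℕ × Finset ℕ)) : Prop :=
  (∀ p ∈ D, p.1 ⊆ p.2 ∧ p.2 ∈ Δ.faces ∧ (p.2 \ p.1).card = k) ∧
    ∀ τ ∈ Δ.faces, ∃! p, p ∈ D ∧ p.1 ⊆ τ ∧ τ ⊆ p.2

/-- The minimal elements (bottoms) of the intervals of `D` form a subcomplex. -/
def BottomsSubcomplex (D : Finset (Finset ℕ × Finset ℕ)) : Prop :=
  ∀ p ∈ D, ∀ τ ⊆ p.1, ∃ q ∈ D, q.1 = τ

end Pool.Agent.Helper221.BID
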