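import Pool.Agent.Helper221.BID.Coll
import Pool.Agent.Helper221.BID.ConeBall

/-!
# The iterated cones over the complex
-/

set_option autoImplicit false

namespace Pool.Agent.Helper221.BID

open Finset

/-- the iterated cones over the complex `BB` -/
def KB : ℕ → Cpx
  | 0 => BB
  | m + 1 => cone (KB m) (9 + m)

theorem KB_range (m : ℕ) : ∀ σ ∈ (KB m).faces, σ ⊆ range (9 + m) := by
  induction m with
  | zero => intro σ hσ; exact BB_range hσ
  | succ m ih =>
    have hn : (KB m).Fresh (9 + m) := fun σ hσ h => by
      have := mem_range.1 (ih σ hσ h)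
      omega
    intro σ hσ i hi
    rw [KB, mem_cone hn] at hσ
    rw [mem_range]
    by_cases h : i = 9 + m
    · omega
    · have := mem_range.1 (ih _ hσ (mem_erase.2 ⟨h, hi⟩))
      omega

theorem KB_fresh (m : ℕ) : (KB m).Fresh (9 + m) := fun σ hσ h => by
  have := mem_range.1 (KB_range m σ hσ h)
  omega

theorem KB_dim (m : ℕ) : (KB m).HasDim (m + 3) := by
  induction m with
  | zero => exact BB_dim
  | succ m ih =>
    have := cone_dim (KB_fresh m) ih
    rwa [show m + 3 + 1 = m + 1 + 3 by omega] at this

theorem KB_ball (m : ℕ) : (KB m).IsBall (m + 3) := by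
  induction m with
  | zero => exact BB_ball
  | succ m ih =>
    have := cone_ball (KB_fresh m) ih
    rwa [show m + 3 + 1 = m + 1 + 3 by omega] at this

theorem KB_obs (m : ℕ) : (KB m).Obs (m + 2) := by
  induction m with
  | zero => exact BB_obs
  | succ m ih =>
    have := cone_obs (KB_fresh m) ih
    rwa [show m + 2 + 1 = m + 1 + 2 by omega] at this

theorem KB_decomp (m : ℕ) : ∃ D, (KB m).IsDecomp (m + 2) D := by
  induction m with
  | zero => exact BB_decomp
  | succ m ih =>
    have := cone_decomp (KB_fresh m) ih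
    rwa [show m + 2 + 1 = m + 1 + 2 by omega] at this

theorem KB_kfold (F : Type*) [Field F] (m : ℕ) : (KB m).KFoldAcyclic F (m + 2) := by
  induction m with
  | zero => exact BB_kfold
  | succ m ih =>
    have := cone_kfold (KB_fresh m) ih
    rwa [show m + 2 + 1 = m + 1 + 2 by omega] at this

theorem embeds_of_ball {Δ : Cpx} {d : ℕ} (h : Δ.IsBall d) : Δ.Embeds d := by
  obtain ⟨e⟩ := h
  exact ⟨fun x => (e x : EuclideanSpace ℝ (Fin d)),
    Topology.IsEmbedding.subtypeVal.comp e.isEmbedding⟩

end Pool.Agent.Helper221.BID
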