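import Pool.Agent.Helper221.BID.Defs

/-!
# An obstruction to decompositions whose bottoms form a subcomplex; cones
-/

set_option autoImplicit false

namespace Pool.Agent.Helper221.BID

open Finset

/-- Every face with `k` vertices contains two vertices `a`, `b` that lie in a missing triangle. -/
def Cpx.Obs (Δ : Cpx) (k : ℕ) : Prop :=
  ∀ F ∈ Δ.faces, F.card = k → ∃ a ∈ F, ∃ b ∈ F, ∃ x,
    ({a, x} : Finset ℕ) ∈ Δ.faces ∧ ({b, x} : Finset ℕ) ∈ Δ.faces ∧ ({a, b, x} : Finset ℕ) ∉ Δ.faces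

theorem not_decomp {Δ : Cpx} {k : ℕ} (h : Δ.Obs k) :
    ¬ ∃ D, Δ.IsDecomp k D ∧ BottomsSubcomplex D := by
  rintro ⟨D, ⟨hD, hU⟩, hS⟩
  obtain ⟨p, ⟨hp, hp1, hp2⟩, hpu⟩ := hU ∅ Δ.empty_mem
  have hp0 : p.1 = ∅ := subset_empty.1 hp1
  obtain ⟨-, hF, hk⟩ := hD p hp
  rw [hp0, sdiff_empty] at hk
  obtain ⟨a, ha, b, hb, x, hax, hbx, habx⟩ := h p.2 hF hk
  have hxF : x ∉ p.2 := by
    intro hx
    apply habx
    refine Δ.down _ hF _ ?_
    intro y hy
    simp only [mem_insert, mem_singleton] at hy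
    rcases hy with rfl | rfl | rfl <;> assumption
  have hx : ({x} : Finset ℕ) ∈ Δ.faces := Δ.down _ hax _ (by simp)
  obtain ⟨q, ⟨hq, hq1, hq2⟩, hqu⟩ := hU _ hx
  -- the interval containing an edge `{a, x}` with `a ∈ F` is `q`
  have key : ∀ a ∈ p.2, ({a, x} : Finset ℕ) ∈ Δ.faces → a ∈ q.2 := by
    intro a ha hax
    obtain ⟨r, ⟨hr, hr1, hr2⟩, -⟩ := hU _ hax
    have har : a ∉ r.1 := by
      intro har
      obtain ⟨q', hq', hq'1⟩ := hS r hr {a} (by simpa using har)
      have haD : ({a} : Finset ℕ) ∈ Δ.faces := Δ.down _ hax _ (by simp)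
      obtain ⟨s, -, hsu⟩ := hU _ haD
      have h1 : q' = s := hsu q' ⟨hq', by rw [hq'1], by rw [← hq'1]; exact (hD q' hq').1⟩
      have h2 : p = s := hsu p ⟨hp, by rw [hp0]; exact empty_subset _, by simpa using ha⟩
      rw [h1, ← h2, hp0] at hq'1
      exact absurd hq'1.symm (singleton_ne_empty a)
    have h3 : r.1 ⊆ {x} := by
      intro y hy
      have := hr1 hy
      simp only [mem_insert, mem_singleton] at this ⊢
      rcases this with rfl | h
      · exact absurd hy har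
      · exact h
    have h4 : r = q := hqu r ⟨hr, h3, by
      intro y hy
      rw [mem_singleton] at hy
      subst hy
      exact hr2 (by simp)⟩
    rw [← h4]
    exact hr2 (by simp)
  apply habx
  refine Δ.down _ (hD q hq).2.1 _ ?_
  intro y hy
  simp only [mem_insert, mem_singleton] at hy
  rcases hy with rfl | rfl | rfl
  · exact key _ ha hax
  · exact key _ hb hbx
  · exact hq2 (by simp)

/-- The cone over `Δ` with apex `n`. -/
def cone (Δ : Cpx) (n : ℕ) : Cpx where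
  faces := Δ.faces ∪ Δ.faces.image (insert n)
  empty_mem := mem_union_left _ Δ.empty_mem
  down := by
    intro σ hσ τ hτ
    rw [mem_union, mem_image] at hσ ⊢
    by_cases hn : n ∈ τ
    · right
      refine ⟨τ.erase n, ?_, insert_erase hn⟩
      rcases hσ with hσ | ⟨ρ, hρ, rfl⟩
      · exact Δ.down _ hσ _ ((erase_subset _ _).trans hτ)
      · refine Δ.down _ hρ _ ?_
        intro y hy
        rw [mem_erase] at hy
        exact (mem_insert.1 (hτ hy.2)).resolve_left hy.1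
    · left
      rcases hσ with hσ | ⟨ρ, hρ, rfl⟩
      · exact Δ.down _ hσ _ hτ
      · refine Δ.down _ hρ _ ?_
        intro y hy
        refine (mem_insert.1 (hτ hy)).resolve_left ?_
        rintro rfl
        exact hn hy

/-- `n` is not a vertex of `Δ` -/
def Cpx.Fresh (Δ : Cpx) (n : ℕ) : Prop := ∀ σ ∈ Δ.faces, n ∉ σ

theorem mem_cone {Δ : Cpx} {n : ℕ} (hn : Δ.Fresh n) {σ : Finset ℕ} :
    σ ∈ (cone Δ n).faces ↔ σ.erase n ∈ Δ.faces := by
  show σ ∈ Δ.faces ∪ Δ.faces.image (insert n) ↔ _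
  rw [mem_union, mem_image]
  constructor
  · rintro (h | ⟨ρ, hρ, rfl⟩)
    · exact Δ.down _ h _ (erase_subset _ _)
    · rwa [erase_insert (hn ρ hρ)]
  · intro h
    by_cases hs : n ∈ σ
    · exact Or.inr ⟨_, h, insert_erase hs⟩
    · left
      rwa [erase_eq_of_notMem hs] at h

theorem mem_cone_of {Δ : Cpx} {n : ℕ} {σ : Finset ℕ} (h : σ ∈ Δ.faces) : σ ∈ (cone Δ n).faces :=
  mem_union_left _ h

theorem cone_dim {Δ : Cpx} {n d : ℕ} (hn : Δ.Fresh n) (h : Δ.HasDim d) :
    (cone Δ n).HasDim (d + 1) := by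
  obtain ⟨h1, σ, hσ, h2⟩ := h
  constructor
  · intro τ hτ
    rw [mem_cone hn] at hτ
    have h3 := h1 _ hτ
    have h4 := pred_card_le_card_erase (s := τ) (a := n)
    omega
  · refine ⟨insert n σ, ?_, ?_⟩
    · rw [mem_cone hn, erase_insert (hn σ hσ)]
      exact hσ
    · rw [card_insert_of_notMem (hn σ hσ), h2]

theorem cone_obs {Δ : Cpx} {n k : ℕ} (hn : Δ.Fresh n) (h : Δ.Obs k) : (cone Δ n).Obs (k + 1) := by
  intro F' hF' hk
  rw [mem_cone hn] at hF'
  have h4 := pred_card_le_card_erase (s := F') (a := n)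
  obtain ⟨F, hF, hFk⟩ := exists_subset_card_eq (s := F'.erase n) (n := k) (by omega)
  obtain ⟨a, ha, b, hb, x, h1, h2, h3⟩ := h F (Δ.down _ hF' _ hF) hFk
  refine ⟨a, (erase_subset _ _) (hF ha), b, (erase_subset _ _) (hF hb), x, mem_cone_of h1,
    mem_cone_of h2, ?_⟩
  rw [mem_cone hn, erase_eq_of_notMem]
  · exact h3
  · intro hcon
    simp only [mem_insert, mem_singleton] at hcon
    rcases hcon with rfl | rfl | rfl
    · exact hn _ h1 (by simp)
    · exact hn _ h2 (by simp)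
    · exact hn _ h1 (by simp)

theorem cone_decomp {Δ : Cpx} {n k : ℕ} (hn : Δ.Fresh n) (h : ∃ D, Δ.IsDecomp k D) :
    ∃ D, (cone Δ n).IsDecomp (k + 1) D := by
  obtain ⟨D, hD, hU⟩ := h
  have hnp : ∀ p ∈ D, n ∉ p.2 := fun p hp => hn _ (hD p hp).2.1
  have hnp1 : ∀ p ∈ D, n ∉ p.1 := fun p hp h => hnp p hp ((hD p hp).1 h)
  refine ⟨D.image (fun p => (p.1, insert n p.2)), ?_, ?_⟩
  · intro q hq
    rw [mem_image] at hq
    obtain ⟨p, hp, rfl⟩ := hq
    obtain ⟨h1, h2, h3⟩ := hD p hp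
    refine ⟨h1.trans (subset_insert _ _), ?_, ?_⟩
    · rw [mem_cone hn]
      show (insert n p.2).erase n ∈ Δ.faces
      rwa [erase_insert (hnp p hp)]
    · show (insert n p.2 \ p.1).card = k + 1
      rw [insert_sdiff_of_notMem _ (hnp1 p hp), card_insert_of_notMem, h3]
      intro hcon
      exact hnp p hp (mem_sdiff.1 hcon).1
  · intro τ hτ
    rw [mem_cone hn] at hτ
    obtain ⟨p, ⟨hp, hp1, hp2⟩, hpu⟩ := hU _ hτ
    refine ⟨(p.1, insert n p.2), ⟨mem_image_of_mem _ hp, hp1.trans (erase_subset _ _), ?_⟩, ?_⟩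
    · intro y hy
      by_cases hyn : y = n
      · subst hyn; exact mem_insert_self _ _
      · exact mem_insert_of_mem (hp2 (mem_erase.2 ⟨hyn, hy⟩))
    · rintro q ⟨hq, hq1, hq2⟩
      rw [mem_image] at hq
      obtain ⟨p', hp', rfl⟩ := hq
      have : p' = p := hpu p' ⟨hp', ?_, ?_⟩
      · rw [this]
      · intro y hy
        refine mem_erase.2 ⟨?_, hq1 hy⟩
        rintro rfl
        exact hnp1 p' hp' hy
      · intro y hy
        rw [mem_erase] at hy
        exact (mem_insert.1 (hq2 hy.2)).resolve_left hy.1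

end Pool.Agent.Helper221.BID
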